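import Pool.Agent.Y358.IN.Base
import Pool.Agent.Y335.FL.Order

set_option autoImplicit false
set_option linter.unusedSectionVars false

/-! # Graphs of small radius (helper173) -/

namespace Pool.Agent.H173FL

open Finset Pool.Agent.TH676.Z Pool.Agent.Y335.FL Pool.Agent.Y358.IN

section cls

variable {V E : Type} [Fintype V] [DecidableEq V] [Fintype E] [DecidableEq E]

/-- there is a walk with at most `n` edges from `c` to `x` -/
def Within {V E : Type} (src dst : E → V) : ℕ → V → V → Prop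
  | 0, c, x => c = x
  | n + 1, c, x => Within src dst n c x ∨
      ∃ y, Within src dst n c y ∧ ∃ e, (src e = y ∧ dst e = x) ∨ (src e = x ∧ dst e = y)

theorem within_map (src dst : E → V) (φ : V → V) (n : ℕ) : ∀ c x, Within src dst n c x →
    Within (φ ∘ src) (φ ∘ dst) n (φ c) (φ x) := by
  induction n with
  | zero => intro c x h; exact congrArg φ h
  | succ n ih =>
    intro c x h
    rcases h with h | ⟨y, hy, e, he⟩
    · exact Or.inl (ih c x h)
    · refine Or.inr ⟨φ y, ih c y hy, e, ?_⟩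
      rcases he with ⟨a, b⟩ | ⟨a, b⟩
      · exact Or.inl ⟨by simp [a], by simp [b]⟩
      · exact Or.inr ⟨by simp [a], by simp [b]⟩

/-- radius at most five, or two centres with distance four -/
def ClD (src dst : E → V) : Prop :=
  (∃ c, ∀ e, Within src dst 5 c (src e) ∧ Within src dst 5 c (dst e)) ∨
  (∃ c1 c2, ∀ e, (Within src dst 4 c1 (src e) ∨ Within src dst 4 c2 (src e)) ∧
    (Within src dst 4 c1 (dst e) ∨ Within src dst 4 c2 (dst e)))

theorem ccD : CC (V := V) (E := E) ClD := by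
  intro src dst e h _
  rcases h with ⟨c, hc⟩ | ⟨c1, c2, hc⟩
  · left
    exact ⟨ctr (src e) (dst e) c, fun e' => ⟨within_map _ _ _ _ _ _ (hc e').1,
      within_map _ _ _ _ _ _ (hc e').2⟩⟩
  · right
    refine ⟨ctr (src e) (dst e) c1, ctr (src e) (dst e) c2, fun e' => ⟨?_, ?_⟩⟩
    · rcases (hc e').1 with h | h
      · exact Or.inl (within_map _ _ _ _ _ _ h)
      · exact Or.inr (within_map _ _ _ _ _ _ h)
    · rcases (hc e').2 with h | h
      · exact Or.inl (within_map _ _ _ _ _ _ h)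
      · exact Or.inr (within_map _ _ _ _ _ _ h)

end cls

section graph

variable {V : Type} [Fintype V] [DecidableEq V] {G : SimpleGraph V}

/-- a path can be extended by every neighbour other than the last but one vertex -/
theorem ext_path (h12 : ∀ (w : V) (c : G.Walk w w), c.IsCycle → 12 ≤ c.length) {u v w : V}
    (p : G.Walk u v) (hp : p.IsPath) (hl : p.length ≤ 10) (hw : G.Adj v w)
    (hne : w ≠ p.penultimate) : w ∉ p.support := by
  intro hws
  have e := Ord.uniq h12 (hp.dropUntil hws) (Ord.edge_path hw.symm) (by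
    have h5 := p.length_dropUntil_le_length hws
    simp only [SimpleGraph.Walk.length_cons, SimpleGraph.Walk.length_nil]
    omega)
  have e2 : p = (p.takeUntil w hws).concat hw.symm := by
    rw [SimpleGraph.Walk.concat_eq_append, ← e, SimpleGraph.Walk.take_spec]
  apply hne
  rw [e2, SimpleGraph.Walk.penultimate_concat]

/-- there is a path with at most `n` edges -/
def Pth (G : SimpleGraph V) (n : ℕ) (c x : V) : Prop := ∃ p : G.Walk c x, p.IsPath ∧ p.length ≤ n

theorem Pth.of_walk {n : ℕ} {c x : V} (h : ∃ p : G.Walk c x, p.length ≤ n) : Pth G n c x := by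
  obtain ⟨p, hp⟩ := h
  exact ⟨p.bypass, p.bypass_isPath, p.length_bypass_le.trans hp⟩

/-- two further neighbours -/
theorem two_more {v pr : V}
    (h3 : ∃ a b c, G.Adj v a ∧ G.Adj v b ∧ G.Adj v c ∧ a ≠ b ∧ a ≠ c ∧ b ≠ c) :
    ∃ a b, G.Adj v a ∧ G.Adj v b ∧ a ≠ b ∧ a ≠ pr ∧ b ≠ pr := by
  obtain ⟨a, b, c, ha, hb, hc, hab, hac, hbc⟩ := h3
  by_cases h1 : a = pr
  · exact ⟨b, c, hb, hc, hbc, fun h => hab (h1.trans h.symm), fun h => hac (h1.trans h.symm)⟩
  · by_cases h2 : b = pr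
    · exact ⟨a, c, ha, hc, hac, h1, fun h => hbc (h2.trans h.symm)⟩
    · exact ⟨a, b, ha, hb, hab, h1, h2⟩

variable (h12 : ∀ (w : V) (c : G.Walk w w), c.IsCycle → 12 ≤ c.length)
  (h3 : ∀ x y, G.Adj x y → ∃ a b c, G.Adj x a ∧ G.Adj x b ∧ G.Adj x c ∧ a ≠ b ∧ a ≠ c ∧ b ≠ c)

include h12 h3

/-- a path with `n` edges starts at every vertex with a neighbour -/
theorem long_path {c y : V} (hcy : G.Adj c y) (n : ℕ) (hn : n ≤ 11) :
    ∃ x, ∃ p : G.Walk c x, p.IsPath ∧ p.length = n := by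
  induction n with
  | zero => exact ⟨c, SimpleGraph.Walk.nil, SimpleGraph.Walk.IsPath.nil, rfl⟩
  | succ n ih =>
    obtain ⟨x, p, hp, hl⟩ := ih (by omega)
    obtain ⟨z, hz⟩ := Ord.nbr hcy p
    obtain ⟨a, b, ha, hb, hab, h1, h2⟩ := two_more (pr := p.penultimate) (h3 x z hz)
    have h4 := ext_path h12 p hp (by omega) ha h1
    exact ⟨a, p.concat ha, hp.concat h4 ha, by rw [SimpleGraph.Walk.length_concat, hl]⟩

/-- no centre with radius five -/
theorem no_radius {c y : V} (hcy : G.Adj c y) : ∃ x z, G.Adj x z ∧ ¬ Pth G 5 c x := by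
  obtain ⟨x, p, hp, hl⟩ := long_path h12 h3 hcy 6 (by norm_num)
  obtain ⟨z, hz⟩ := Ord.nbr hcy p
  refine ⟨x, z, hz, ?_⟩
  rintro ⟨q, hq, hql⟩
  have := Ord.uniq h12 hp hq (by omega)
  rw [this] at hl
  omega

/-- no two centres with radius four -/
theorem no_two {x0 y0 : V} (hxy : G.Adj x0 y0) (c1 c2 : V) :
    ∃ x z, G.Adj x z ∧ ¬ Pth G 4 c1 x ∧ ¬ Pth G 4 c2 x := by
  by_contra hno
  push Not at hno
  -- the least covering radius
  have hex : ∃ j, ∀ x z, G.Adj x z → Pth G j c1 x ∨ Pth G j c2 x :=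
    ⟨4, fun x z h => by
      by_cases h1 : Pth G 4 c1 x
      · exact Or.inl h1
      · exact Or.inr (hno x z h h1)⟩
  classical
  set j := Nat.find hex with hj
  have hj4 : j ≤ 4 := Nat.find_min' hex (fun x z h => by
      by_cases h1 : Pth G 4 c1 x
      · exact Or.inl h1
      · exact Or.inr (hno x z h h1))
  have hcov : ∀ x z, G.Adj x z → Pth G j c1 x ∨ Pth G j c2 x := Nat.find_spec hex
  have mono : ∀ {m n : ℕ} {c x : V}, m ≤ n → Pth G m c x → Pth G n c x :=
    fun hmn ⟨p, hp, hl⟩ => ⟨p, hp, hl.trans hmn⟩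
  -- a vertex at distance `j`
  obtain ⟨x, z, hz, hx1, hx2⟩ : ∃ x z, G.Adj x z ∧ (∀ m, m < j → ¬ Pth G m c1 x) ∧
      ∀ m, m < j → ¬ Pth G m c2 x := by
    by_cases h0 : j = 0
    · exact ⟨x0, y0, hxy, fun m hm => by omega, fun m hm => by omega⟩
    · have h5 := Nat.find_min hex (m := j - 1) (by omega)
      push Not at h5
      obtain ⟨x, z, hz, h6, h7⟩ := h5
      exact ⟨x, z, hz, fun m hm h => h6 (mono (by omega) h), fun m hm h => h7 (mono (by omega) h)⟩
  -- main argument
  have key : ∀ c d : V, (∀ x z, G.Adj x z → Pth G j c x ∨ Pth G j d x) →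
      (∀ m, m < j → ¬ Pth G m c x) → (∀ m, m < j → ¬ Pth G m d x) → Pth G j c x → False := by
    rintro c d hcd hxc hxd ⟨p, hp, hpl⟩
    have hpj : p.length = j := by
      by_contra hne
      exact hxc p.length (by omega) ⟨p, hp, le_refl _⟩
    obtain ⟨a, b, ha, hb, hab, h1, h2⟩ := two_more (pr := p.penultimate) (h3 x z hz)
    have hd : ∀ y, G.Adj x y → y ≠ p.penultimate → ∃ q : G.Walk d y, q.IsPath ∧ q.length ≤ j ∧
        x ∉ q.support := by
      intro y hy hyp
      rcases hcd y x hy.symm with ⟨q, hq, hql⟩ | ⟨q, hq, hql⟩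
      · exfalso
        have h4 := ext_path h12 p hp (by omega) hy hyp
        have h5 := Ord.uniq h12 (hp.concat h4 hy) hq (by
          rw [SimpleGraph.Walk.length_concat]; omega)
        have h6 := congrArg SimpleGraph.Walk.length h5
        rw [SimpleGraph.Walk.length_concat] at h6
        omega
      · refine ⟨q, hq, hql, fun hxq => ?_⟩
        have h4 : (q.takeUntil x hxq).length < q.length :=
          SimpleGraph.Walk.length_takeUntil_lt hxq hy.ne
        exact hxd (q.takeUntil x hxq).length (by omega)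
          ⟨q.takeUntil x hxq, hq.takeUntil hxq, le_refl _⟩
    obtain ⟨q1, a1, a2, a3⟩ := hd a ha h1
    obtain ⟨q2, b1, b2, b3⟩ := hd b hb h2
    have h5 := Ord.uniq h12 (a1.concat a3 ha.symm) (b1.concat b3 hb.symm) (by
      rw [SimpleGraph.Walk.length_concat, SimpleGraph.Walk.length_concat]; omega)
    have h6 := congrArg SimpleGraph.Walk.penultimate h5
    rw [SimpleGraph.Walk.penultimate_concat, SimpleGraph.Walk.penultimate_concat] at h6
    exact hab h6
  rcases hcov x z hz with h | h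
  · exact key c1 c2 hcov hx1 hx2 h
  · exact key c2 c1 (fun x z h => (hcov x z h).symm) hx2 hx1 h

end graph

/-- **Main step.** -/
theorem flow_of_ClD (hc : St_contract) {V E : Type} [Fintype V] [DecidableEq V]
    [Fintype E] [DecidableEq E] (src dst : E → V) (hcl : ClD src dst) (hbr : Br src dst ∅ ∅) :
    FlowOn src dst ∅ ∅ := by
  classical
  by_contra hn
  obtain ⟨s, d, hS, hM⟩ := exists_minC ccD src dst hcl hbr hn
  have h3 := threeC hc hM
  have hgi := girthC hc hM
  by_cases hl : ∀ e, s e = d e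
  · exact hM.nf (flow_of_loops hl)
  push Not at hl
  obtain ⟨e, he⟩ := hl
  let G : SimpleGraph V :=
    { Adj := Adj s d
      symm := ⟨fun a b h => GiAux.adj_symm h⟩
      loopless := ⟨fun a h => h.1 rfl⟩ }
  have hG : ∀ a b, G.Adj a b ↔ Adj s d a b := fun a b => Iff.rfl
  have h12 : ∀ (w : V) (c : G.Walk w w), c.IsCycle → 12 ≤ c.length :=
    fun w c hc => Ord.cycle_len hgi G hG c hc
  have h3' : ∀ x y, G.Adj x y → ∃ a b c, G.Adj x a ∧ G.Adj x b ∧ G.Adj x c ∧ a ≠ b ∧ a ≠ c ∧ b ≠ c :=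
    fun x y h => h3 x y h
  have hxy : G.Adj (s e) (d e) := ⟨he, e, Or.inl ⟨rfl, rfl⟩⟩
  have hwalk : ∀ n c x, Within s d n c x → ∃ p : G.Walk c x, p.length ≤ n := by
    intro n
    induction n with
    | zero => intro c x h; cases h; exact ⟨SimpleGraph.Walk.nil, le_refl _⟩
    | succ n ih =>
      intro c x h
      rcases h with h | ⟨y, hy, e', he'⟩
      · obtain ⟨p, hp⟩ := ih c x h
        exact ⟨p, by omega⟩
      · obtain ⟨p, hp⟩ := ih c y hy
        by_cases hyx : y = x
        · subst hyx; exact ⟨p, by omega⟩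
        · have hadj : G.Adj y x := ⟨hyx, e', he'⟩
          exact ⟨p.concat hadj, by rw [SimpleGraph.Walk.length_concat]; omega⟩
  have hpth : ∀ n c x, Within s d n c x → Pth G n c x := fun n c x h => Pth.of_walk (hwalk n c x h)
  -- ends of edges
  have hends : ∀ (P : V → Prop), (∀ e, P (s e) ∧ P (d e)) → ∀ x z, G.Adj x z → P x := by
    intro P hP x z ⟨_, e', he'⟩
    rcases he' with ⟨a, _⟩ | ⟨_, b⟩
    · rw [← a]; exact (hP e').1
    · rw [← b]; exact (hP e').2
  rcases hS with ⟨c, hcc⟩ | ⟨c1, c2, hcc⟩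
  · have h5 := hends (fun x => Pth G 5 c x) (fun e => ⟨hpth _ _ _ (hcc e).1, hpth _ _ _ (hcc e).2⟩)
    -- the centre has a neighbour
    obtain ⟨y, hy⟩ : ∃ y, G.Adj c y := by
      obtain ⟨p, hp, _⟩ := h5 (s e) (d e) hxy
      by_cases hn : p.Nil
      · exact ⟨d e, hn.eq ▸ hxy⟩
      · exact ⟨_, p.adj_snd hn⟩
    obtain ⟨x, z, hxz, hx⟩ := no_radius h12 h3' hy
    exact hx (h5 x z hxz)
  · have h5 := hends (fun x => Pth G 4 c1 x ∨ Pth G 4 c2 x) (fun e =>
      ⟨(hcc e).1.imp (hpth _ _ _) (hpth _ _ _), (hcc e).2.imp (hpth _ _ _) (hpth _ _ _)⟩)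
    obtain ⟨x, z, hxz, hx1, hx2⟩ := no_two h12 h3' hxy c1 c2
    rcases h5 x z hxz with h | h
    · exact hx1 h
    · exact hx2 h

end Pool.Agent.H173FL
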