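import Pool.Agent.Y335.FL.Stm2

set_option autoImplicit false
set_option linter.unusedSectionVars false

/-! # Splitting off pairs of edges (helper173)

At a vertex with at least four proper edges of a bridgeless multigraph some pair of them can be
split off without creating a bridge; nowhere-zero flows lift, and all degrees keep their parity. -/

namespace Pool.Agent.H173FL

open Finset Pool.Agent.TH676.Z Pool.Agent.Y335.FL

variable {V E : Type} [Fintype V] [DecidableEq V] [Fintype E] [DecidableEq E]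

/-- the other end of `e` -/
def ot (src dst : E → V) (v : V) (e : E) : V := if src e = v then dst e else src e

/-- the proper edges at `v` -/
def pe (src dst : E → V) (v : V) : Finset E :=
  univ.filter (fun e => src e ≠ dst e ∧ (src e = v ∨ dst e = v))

theorem mem_pe {src dst : E → V} {v : V} {e : E} :
    e ∈ pe src dst v ↔ src e ≠ dst e ∧ (src e = v ∨ dst e = v) := by
  simp [pe]

/-- the degree, loops count twice -/
def dg2 (src dst : E → V) (x : V) : ℕ :=
  ∑ e, ((if src e = x then 1 else 0) + (if dst e = x then 1 else 0))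

theorem sum_two {M : Type} [AddCommMonoid M] {e1 e2 : E} (h : e1 ≠ e2) (φ : E → M) :
    ∑ e, φ e = (φ e1 + φ e2) + ∑ e ∈ (univ.erase e1).erase e2, φ e := by
  rw [← Finset.add_sum_erase univ φ (mem_univ e1),
    ← Finset.add_sum_erase (univ.erase e1) φ (mem_erase.mpr ⟨h.symm, mem_univ e2⟩), add_assoc]

theorem sum_rest {M : Type} [AddCommMonoid M] {e1 e2 : E} {φ ψ : E → M}
    (h : ∀ e, e ≠ e1 → e ≠ e2 → φ e = ψ e) :
    ∑ e ∈ (univ.erase e1).erase e2, φ e = ∑ e ∈ (univ.erase e1).erase e2, ψ e := by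
  refine sum_congr rfl fun e he => h e ?_ ?_
  · exact (mem_erase.mp (mem_erase.mp he).2).1
  · exact (mem_erase.mp he).1

/-- new sources -/
def ns (src dst : E → V) (v : V) (e1 e2 : E) (e : E) : V :=
  if e = e1 then ot src dst v e1 else if e = e2 then v else src e

/-- new targets -/
def nd (src dst : E → V) (v : V) (e1 e2 : E) (e : E) : V :=
  if e = e1 then ot src dst v e2 else if e = e2 then v else dst e

section

variable {src dst : E → V} {v : V} {e1 e2 : E}

theorem ns1 : ns src dst v e1 e2 e1 = ot src dst v e1 := by simp [ns]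
theorem nd1 : nd src dst v e1 e2 e1 = ot src dst v e2 := by simp [nd]
theorem ns2 (h : e1 ≠ e2) : ns src dst v e1 e2 e2 = v := by simp [ns, h.symm]
theorem nd2 (h : e1 ≠ e2) : nd src dst v e1 e2 e2 = v := by simp [nd, h.symm]
theorem ns3 {e : E} (h1 : e ≠ e1) (h2 : e ≠ e2) : ns src dst v e1 e2 e = src e := by
  simp [ns, h1, h2]
theorem nd3 {e : E} (h1 : e ≠ e1) (h2 : e ≠ e2) : nd src dst v e1 e2 e = dst e := by
  simp [nd, h1, h2]

theorem ot_or {e : E} (h : e ∈ pe src dst v) :
    (src e = v ∧ dst e = ot src dst v e) ∨ (dst e = v ∧ src e = ot src dst v e) := by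
  rw [mem_pe] at h
  by_cases h1 : src e = v
  · left; exact ⟨h1, by simp [ot, h1]⟩
  · right
    rcases h.2 with h2 | h2
    · exact absurd h2 h1
    · exact ⟨h2, by simp [ot, h1]⟩

theorem ot_ne {e : E} (h : e ∈ pe src dst v) : ot src dst v e ≠ v := by
  have h0 := (mem_pe.mp h).1
  rcases ot_or h with ⟨h1, h2⟩ | ⟨h1, h2⟩
  · rw [← h2, ← h1]; exact h0.symm
  · rw [← h2, ← h1]; exact h0

/-- the degrees do not change -/
theorem dg2_split (h12 : e1 ≠ e2) (h1 : e1 ∈ pe src dst v) (h2 : e2 ∈ pe src dst v) (x : V) :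
    dg2 (ns src dst v e1 e2) (nd src dst v e1 e2) x = dg2 src dst x := by
  unfold dg2
  rw [sum_two h12, sum_two h12 (fun e => (if src e = x then 1 else 0) + (if dst e = x then 1 else 0))]
  congr 1
  · rw [ns1, nd1, ns2 h12, nd2 h12]
    rcases ot_or h1 with ⟨a1, a2⟩ | ⟨a1, a2⟩ <;> rcases ot_or h2 with ⟨b1, b2⟩ | ⟨b1, b2⟩ <;>
      rw [← a2, ← b2, a1, b1] <;> ring
  · exact sum_rest fun e g1 g2 => by rw [ns3 g1 g2, nd3 g1 g2]

/-- nowhere-zero flows lift -/
theorem flow_split (h12 : e1 ≠ e2) (h1 : e1 ∈ pe src dst v) (h2 : e2 ∈ pe src dst v)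
    (h : FlowOn (ns src dst v e1 e2) (nd src dst v e1 e2) ∅ ∅) : FlowOn src dst ∅ ∅ := by
  obtain ⟨f, hf, -, hn⟩ := h
  set g : E → ZMod 5 := fun e =>
    if e = e1 then (if src e1 = v then - f e1 else f e1)
    else if e = e2 then (if src e2 = v then f e1 else - f e1) else f e with hg
  have g1 : g e1 = if src e1 = v then - f e1 else f e1 := by simp [hg]
  have g2 : g e2 = if src e2 = v then f e1 else - f e1 := by simp [hg, h12.symm]
  have g3 : ∀ e, e ≠ e1 → e ≠ e2 → g e = f e := fun e a b => by simp [hg, a, b]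
  have hf1 : f e1 ≠ 0 := hn e1 (notMem_empty _) (notMem_empty _)
  refine ⟨g, fun x => ?_, fun e he => absurd he (notMem_empty _), fun e _ _ => ?_⟩
  · rw [← hf x]
    unfold bd
    rw [sum_two h12, sum_two h12 (fun e => (if ns src dst v e1 e2 e = x then f e else 0) -
      (if nd src dst v e1 e2 e = x then f e else 0))]
    congr 1
    · rw [g1, g2, ns1, nd1, ns2 h12, nd2 h12]
      have k1 := ot_ne h1
      have k2 := ot_ne h2
      rcases ot_or h1 with ⟨a1, a2⟩ | ⟨a1, a2⟩ <;> rcases ot_or h2 with ⟨b1, b2⟩ | ⟨b1, b2⟩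
      · rw [if_pos a1, if_pos b1, a1, b1, ← a2, ← b2]
        by_cases c1 : v = x <;> by_cases c2 : dst e1 = x <;> by_cases c3 : dst e2 = x <;>
          simp [c1, c2, c3]
      · have n2 : src e2 ≠ v := by rw [b2]; exact k2
        rw [if_pos a1, if_neg n2, a1, b1, ← a2, ← b2]
        by_cases c1 : v = x <;> by_cases c2 : dst e1 = x <;> by_cases c3 : src e2 = x <;>
          simp [c1, c2, c3]
      · have n1 : src e1 ≠ v := by rw [a2]; exact k1
        rw [if_neg n1, if_pos b1, a1, b1, ← a2, ← b2]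
        by_cases c1 : v = x <;> by_cases c2 : src e1 = x <;> by_cases c3 : dst e2 = x <;>
          simp [c1, c2, c3]
      · have n1 : src e1 ≠ v := by rw [a2]; exact k1
        have n2 : src e2 ≠ v := by rw [b2]; exact k2
        rw [if_neg n1, if_neg n2, a1, b1, ← a2, ← b2]
        by_cases c1 : v = x <;> by_cases c2 : src e1 = x <;> by_cases c3 : src e2 = x <;>
          simp [c1, c2, c3]
    · exact sum_rest fun e a b => by rw [ns3 a b, nd3 a b, g3 e a b]
  · by_cases c1 : e = e1
    · rw [c1, g1]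
      split_ifs
      · exact neg_ne_zero.mpr hf1
      · exact hf1
    · by_cases c2 : e = e2
      · rw [c2, g2]
        split_ifs
        · exact hf1
        · exact neg_ne_zero.mpr hf1
      · rw [g3 e c1 c2]; exact hn e (notMem_empty _) (notMem_empty _)

/-- the size of a cut as a sum -/
theorem card_crs (src dst : E → V) (Y : Finset V) :
    (crs src dst Y).card = ∑ e, (if (src e ∈ Y ↔ dst e ∈ Y) then 0 else 1) := by
  unfold crs
  rw [card_filter]
  refine sum_congr rfl fun e _ => ?_
  by_cases h : (src e ∈ Y ↔ dst e ∈ Y) <;> simp [h]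

/-- the cuts of the new graph -/
theorem crs_split (h12 : e1 ≠ e2) (h1 : e1 ∈ pe src dst v) (h2 : e2 ∈ pe src dst v)
    (Y : Finset V) :
    (crs src dst Y).card = (crs (ns src dst v e1 e2) (nd src dst v e1 e2) Y).card +
      (if (ot src dst v e1 ∈ Y ↔ ot src dst v e2 ∈ Y) ∧ ¬ (v ∈ Y ↔ ot src dst v e1 ∈ Y)
        then 2 else 0) := by
  rw [card_crs, card_crs, sum_two h12, sum_two h12 (fun e =>
    if (ns src dst v e1 e2 e ∈ Y ↔ nd src dst v e1 e2 e ∈ Y) then 0 else 1)]
  rw [sum_rest (φ := fun e => if (src e ∈ Y ↔ dst e ∈ Y) then 0 else 1)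
    (ψ := fun e => if (ns src dst v e1 e2 e ∈ Y ↔ nd src dst v e1 e2 e ∈ Y) then 0 else 1)
    (fun e a b => by rw [ns3 a b, nd3 a b])]
  rw [ns1, nd1, ns2 h12, nd2 h12]
  rcases ot_or h1 with ⟨a1, a2⟩ | ⟨a1, a2⟩ <;> rcases ot_or h2 with ⟨b1, b2⟩ | ⟨b1, b2⟩ <;>
    rw [← a2, ← b2, a1, b1]
  · by_cases c1 : v ∈ Y <;> by_cases c2 : dst e1 ∈ Y <;> by_cases c3 : dst e2 ∈ Y <;>
      simp [c1, c2, c3] <;> omega
  · by_cases c1 : v ∈ Y <;> by_cases c2 : dst e1 ∈ Y <;> by_cases c3 : src e2 ∈ Y <;>
      simp [c1, c2, c3] <;> omega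
  · by_cases c1 : v ∈ Y <;> by_cases c2 : src e1 ∈ Y <;> by_cases c3 : dst e2 ∈ Y <;>
      simp [c1, c2, c3] <;> omega
  · by_cases c1 : v ∈ Y <;> by_cases c2 : src e1 ∈ Y <;> by_cases c3 : src e2 ∈ Y <;>
      simp [c1, c2, c3] <;> omega

end

/-! ### The splitting lemma -/

/-- the number of the edges between `A` and `B` -/
def btw (src dst : E → V) (A B : Finset V) : ℕ :=
  ∑ e, (if (src e ∈ A ∧ dst e ∈ B) ∨ (src e ∈ B ∧ dst e ∈ A) then 1 else 0)

theorem id1 (src dst : E → V) (X Y : Finset V) :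
    (crs src dst X).card + (crs src dst Y).card = (crs src dst (X ∩ Y)).card +
      (crs src dst (X ∪ Y)).card + 2 * btw src dst (X \ Y) (Y \ X) := by
  rw [card_crs, card_crs, card_crs, card_crs, btw, mul_sum, ← sum_add_distrib, ← sum_add_distrib,
    ← sum_add_distrib]
  refine sum_congr rfl fun e _ => ?_
  by_cases c1 : src e ∈ X <;> by_cases c2 : dst e ∈ X <;> by_cases c3 : src e ∈ Y <;>
    by_cases c4 : dst e ∈ Y <;> simp [c1, c2, c3, c4]

theorem id2 (src dst : E → V) (X Y : Finset V) :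
    (crs src dst X).card + (crs src dst Y).card = (crs src dst (X \ Y)).card +
      (crs src dst (Y \ X)).card + 2 * btw src dst (X ∩ Y) (X ∪ Y)ᶜ := by
  rw [card_crs, card_crs, card_crs, card_crs, btw, mul_sum, ← sum_add_distrib, ← sum_add_distrib,
    ← sum_add_distrib]
  refine sum_congr rfl fun e _ => ?_
  by_cases c1 : src e ∈ X <;> by_cases c2 : dst e ∈ X <;> by_cases c3 : src e ∈ Y <;>
    by_cases c4 : dst e ∈ Y <;> simp [c1, c2, c3, c4]

theorem id3 (src dst : E → V) (X Y : Finset V) :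
    (crs src dst (X ∩ Y)).card + (crs src dst (X \ Y)).card = (crs src dst X).card +
      2 * btw src dst (X ∩ Y) (X \ Y) := by
  rw [card_crs, card_crs, card_crs, btw, mul_sum, ← sum_add_distrib, ← sum_add_distrib]
  refine sum_congr rfl fun e _ => ?_
  by_cases c1 : src e ∈ X <;> by_cases c2 : dst e ∈ X <;> by_cases c3 : src e ∈ Y <;>
    by_cases c4 : dst e ∈ Y <;> simp [c1, c2, c3, c4]

/-- the proper edges at `v` with the other end in `X` -/
def into (src dst : E → V) (v : V) (X : Finset V) : Finset E :=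
  (pe src dst v).filter (fun e => ot src dst v e ∈ X)

theorem into_crs {src dst : E → V} {v : V} {X : Finset V} (hv : v ∉ X) :
    into src dst v X ⊆ crs src dst X := by
  intro e he
  rw [into, mem_filter] at he
  unfold crs
  rw [mem_filter]
  refine ⟨mem_univ _, fun hiff => ?_⟩
  rcases ot_or he.1 with ⟨h1, h2⟩ | ⟨h1, h2⟩
  · rw [h1, h2] at hiff; exact hv (hiff.mpr he.2)
  · rw [h1, h2] at hiff; exact hv (hiff.mp he.2)

/-- **Splitting lemma.** -/
theorem exists_pair {src dst : E → V} (hb : ∀ Y : Finset V, (crs src dst Y).card ≠ 1) {v : V}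
    (h4 : 4 ≤ (pe src dst v).card) :
    ∃ e1 ∈ pe src dst v, ∃ e2 ∈ pe src dst v, e1 ≠ e2 ∧ ∀ Y : Finset V, v ∉ Y →
      ot src dst v e1 ∈ Y → ot src dst v e2 ∈ Y → (crs src dst Y).card ≠ 3 := by
  by_contra hno
  push Not at hno
  set T : Finset (Finset V) := univ.filter (fun Y => v ∉ Y ∧ (crs src dst Y).card = 3 ∧
    2 ≤ (into src dst v Y).card) with hT
  have hmem : ∀ Y, Y ∈ T ↔ v ∉ Y ∧ (crs src dst Y).card = 3 ∧ 2 ≤ (into src dst v Y).card := by
    intro Y; rw [hT, mem_filter]; simp
  have hne : T.Nonempty := by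
    obtain ⟨e1, he1, e2, he2, h12⟩ := one_lt_card.mp (lt_of_lt_of_le (by norm_num) h4)
    obtain ⟨Y, y1, y2, y3, y4⟩ := hno e1 he1 e2 he2 h12
    refine ⟨Y, (hmem Y).mpr ⟨y1, y4, ?_⟩⟩
    have : ({e1, e2} : Finset E) ⊆ into src dst v Y := by
      intro e he
      rw [mem_insert, mem_singleton] at he
      rw [into, mem_filter]
      rcases he with rfl | rfl
      · exact ⟨he1, y2⟩
      · exact ⟨he2, y3⟩
    have h5 := card_le_card this
    rwa [card_pair h12] at h5
  obtain ⟨X, hX, hmax⟩ := exists_max_image T card hne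
  obtain ⟨x1, x2, x3⟩ := (hmem X).mp hX
  -- an edge at `v` which does not lead to `X`
  obtain ⟨e, he, heX⟩ : ∃ e ∈ pe src dst v, ot src dst v e ∉ X := by
    by_contra hall
    push Not at hall
    have h5 : pe src dst v ⊆ into src dst v X := fun e he => by
      rw [into, mem_filter]; exact ⟨he, hall e he⟩
    have h6 := card_le_card (h5.trans (into_crs x1))
    omega
  obtain ⟨g, hg⟩ : (into src dst v X).Nonempty := card_pos.mp (by omega)
  have hg' := hg
  rw [into, mem_filter] at hg'
  obtain ⟨hg1, hgX⟩ := hg'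
  have hge : g ≠ e := by rintro rfl; exact heX hgX
  obtain ⟨Y, y1, y2, y3, y4⟩ := hno g hg1 e he hge
  have i1 := id1 src dst X Y
  have i2 := id2 src dst X Y
  have i3 := id3 src dst X Y
  have i4 := id3 src dst Y X
  rw [inter_comm Y X] at i4
  have hvU : v ∉ X ∪ Y := by rw [mem_union]; tauto
  -- at least three edges lead to the union
  have hU3 : 3 ≤ (crs src dst (X ∪ Y)).card := by
    have h5 : insert e (into src dst v X) ⊆ into src dst v (X ∪ Y) := by
      intro f hf
      rw [mem_insert] at hf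
      rw [into, mem_filter, mem_union]
      rcases hf with rfl | hf
      · exact ⟨he, Or.inr y3⟩
      · rw [into, mem_filter] at hf
        exact ⟨hf.1, Or.inl hf.2⟩
    have h6 : e ∉ into src dst v X := by rw [into, mem_filter]; tauto
    have h7 := card_le_card (h5.trans (into_crs hvU))
    rw [card_insert_of_notMem h6] at h7
    omega
  have hUne : (crs src dst (X ∪ Y)).card ≠ 3 := by
    intro h3
    have h5 : X ∪ Y ∈ T := by
      refine (hmem _).mpr ⟨hvU, h3, x3.trans (card_le_card ?_)⟩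
      intro f hf
      rw [into, mem_filter] at hf ⊢
      exact ⟨hf.1, mem_union_left _ hf.2⟩
    have h6 := hmax _ h5
    have h7 : X.card < (X ∪ Y).card := card_lt_card
      ⟨subset_union_left, fun hsub => heX (hsub (mem_union_right _ y3))⟩
    omega
  -- the edge `g` joins the intersection to `v`
  have hgb : 1 ≤ btw src dst (X ∩ Y) (X ∪ Y)ᶜ := by
    unfold btw
    have h5 : (if (src g ∈ X ∩ Y ∧ dst g ∈ (X ∪ Y)ᶜ) ∨ (src g ∈ (X ∪ Y)ᶜ ∧ dst g ∈ X ∩ Y) then 1
        else 0) = 1 := by
      rw [if_pos]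
      have hv' : v ∈ (X ∪ Y)ᶜ := by rw [mem_compl]; exact hvU
      have ho : ot src dst v g ∈ X ∩ Y := mem_inter.mpr ⟨hgX, y2⟩
      rcases ot_or hg1 with ⟨h1, h2⟩ | ⟨h1, h2⟩
      · right; rw [h1, h2]; exact ⟨hv', ho⟩
      · left; rw [h1, h2]; exact ⟨ho, hv'⟩
    calc 1 = _ := h5.symm
      _ ≤ _ := single_le_sum (f := fun e => if (src e ∈ X ∩ Y ∧ dst e ∈ (X ∪ Y)ᶜ) ∨
        (src e ∈ (X ∪ Y)ᶜ ∧ dst e ∈ X ∩ Y) then 1 else 0) (fun _ _ => Nat.zero_le _) (mem_univ g)
  have hgA : 1 ≤ (crs src dst (X ∩ Y)).card := by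
    refine card_pos.mpr ⟨g, ?_⟩
    refine into_crs (v := v) (by rw [mem_inter]; tauto) ?_
    rw [into, mem_filter]; exact ⟨hg1, mem_inter.mpr ⟨hgX, y2⟩⟩
  have b1 := hb (X ∩ Y)
  have b2 := hb (X \ Y)
  have b3 := hb (Y \ X)
  omega

/-- the number of proper edges -/
def npe (src dst : E → V) : ℕ := (univ.filter (fun e => src e ≠ dst e)).card

theorem npe_split {src dst : E → V} {v : V} {e1 e2 : E} (h12 : e1 ≠ e2)
    (h1 : e1 ∈ pe src dst v) (h2 : e2 ∈ pe src dst v) :
    npe (ns src dst v e1 e2) (nd src dst v e1 e2) < npe src dst := by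
  unfold npe
  apply card_lt_card
  refine ⟨fun e he => ?_, fun hsub => ?_⟩
  · rw [mem_filter] at he ⊢
    refine ⟨mem_univ _, ?_⟩
    by_cases c1 : e = e1
    · rw [c1]; exact (mem_pe.mp h1).1
    · by_cases c2 : e = e2
      · rw [c2]; exact (mem_pe.mp h2).1
      · have := he.2
        rwa [ns3 c1 c2, nd3 c1 c2] at this
  · have h3 := hsub (mem_filter.mpr ⟨mem_univ e2, (mem_pe.mp h2).1⟩)
    rw [mem_filter, ns2 h12, nd2 h12] at h3
    exact h3.2 rfl

/-- the parity of the degree -/
theorem dg2_mod (src dst : E → V) (x : V) : dg2 src dst x % 2 = (pe src dst x).card % 2 := by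
  have h : dg2 src dst x = (pe src dst x).card +
      2 * ∑ e, (if src e = x ∧ dst e = x then 1 else 0) := by
    unfold dg2 pe
    rw [card_filter, mul_sum, ← sum_add_distrib]
    refine sum_congr rfl fun e _ => ?_
    by_cases c1 : src e = x <;> by_cases c2 : dst e = x
    · simp [c1, c2]
    · simp [c1, c2]
      intro h; exact c2 h.symm
    · simp [c1, c2]
    · simp [c1, c2]
  rw [h]; omega

/-- **Reduction to maximum degree three.** If bridgeless multigraphs with at most `N` vertices with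
three or more proper edges have nowhere-zero flows then so have all bridgeless multigraphs with at
most `N` vertices of odd degree. -/
theorem odd_of_order {N : ℕ}
    (hN : ∀ src dst : E → V, (univ.filter (fun x => 3 ≤ (pe src dst x).card)).card ≤ N →
      (∀ Y : Finset V, (crs src dst Y).card ≠ 1) → FlowOn src dst ∅ ∅)
    (n : ℕ) : ∀ src dst : E → V, npe src dst = n →
      (univ.filter (fun x => Odd (dg2 src dst x))).card ≤ N →
      (∀ Y : Finset V, (crs src dst Y).card ≠ 1) → FlowOn src dst ∅ ∅ := by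
  induction n using Nat.strong_induction_on with
  | _ n ih =>
    intro src dst hn ho hb
    by_cases hv : ∃ v, 4 ≤ (pe src dst v).card
    · obtain ⟨v, h4⟩ := hv
      obtain ⟨e1, h1, e2, h2, h12, hY⟩ := exists_pair hb h4
      refine flow_split h12 h1 h2 (ih _ (hn ▸ npe_split h12 h1 h2) _ _ rfl ?_ ?_)
      · refine le_trans (le_of_eq ?_) ho
        congr 1
        ext x
        rw [mem_filter, mem_filter, dg2_split h12 h1 h2]
      · intro Y hc
        have h5 := crs_split h12 h1 h2 Y
        split_ifs at h5 with h6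
        · by_cases hvY : v ∈ Y
          · -- pass to the complement
            have h7 : (crs src dst Yᶜ).card = (crs src dst Y).card := by
              rw [card_crs, card_crs]
              refine sum_congr rfl fun e _ => ?_
              by_cases c1 : src e ∈ Y <;> by_cases c2 : dst e ∈ Y <;> simp [c1, c2]
            refine hY Yᶜ (by simp [hvY]) ?_ ?_ (by omega)
            · rw [mem_compl]; tauto
            · rw [mem_compl]; tauto
          · exact hY Y hvY (by tauto) (by tauto) (by omega)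
        · exact hb Y (by omega)
    · push Not at hv
      refine hN src dst (le_trans (card_le_card fun x hx => ?_) ho) hb
      rw [mem_filter] at hx ⊢
      refine ⟨mem_univ _, ?_⟩
      have h5 := hv x
      have h6 := dg2_mod src dst x
      rw [Nat.odd_iff]
      omega

end Pool.Agent.H173FL
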