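import Pool.Agent.H173FL.Radius

set_option autoImplicit false
set_option linter.unusedSectionVars false

/-! # Graphs without a large binary tree as a minor (helper173) -/

namespace Pool.Agent.H173FL

open Finset Pool.Agent.TH676.Z Pool.Agent.Y335.FL Pool.Agent.Y358.IN

/-- branch sets, given by labels, form a minor isomorphic to the double binary tree with depth `n`:
the labels are a side and a word with at most `n` letters -/
def TreeMinor {V E : Type} (n : ℕ) (src dst : E → V) : Prop :=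
  ∃ β : V → Option (Bool × List Bool),
    (∀ t : Bool × List Bool, t.2.length ≤ n → ∀ X : V → Prop,
      (∃ v, X v ∧ β v = some t) → (∃ v, ¬ X v ∧ β v = some t) →
      ∃ e, β (src e) = some t ∧ β (dst e) = some t ∧ ¬ (X (src e) ↔ X (dst e))) ∧
    (∃ e, (β (src e) = some (false, []) ∧ β (dst e) = some (true, [])) ∨
      (β (dst e) = some (false, []) ∧ β (src e) = some (true, []))) ∧
    ∀ (b c : Bool) (w : List Bool), w.length < n →
      ∃ e, (β (src e) = some (b, w) ∧ β (dst e) = some (b, c :: w)) ∨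
        (β (dst e) = some (b, w) ∧ β (src e) = some (b, c :: w))

section cls

variable {V E : Type} [Fintype V] [DecidableEq V] [Fintype E] [DecidableEq E]

theorem treeMinor_ctr {n : ℕ} (src dst : E → V) (e : E)
    (h : TreeMinor n (ctr (src e) (dst e) ∘ src) (ctr (src e) (dst e) ∘ dst)) :
    TreeMinor n src dst := by
  obtain ⟨β, h1, h2, h3⟩ := h
  set φ := ctr (src e) (dst e) with hφ
  have hφb : φ (dst e) = src e := by simp [hφ, ctr]
  have hφa : φ (src e) = src e := by
    simp only [hφ, ctr]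
    split_ifs <;> rfl
  have hφx : ∀ x, x ≠ dst e → φ x = x := by
    intro x hx
    simp [hφ, ctr, hx]
  refine ⟨β ∘ φ, ?_, h2, h3⟩
  intro t ht X hv hv'
  obtain ⟨v, hvX, hvt⟩ := hv
  obtain ⟨v', hvX', hvt'⟩ := hv'
  simp only [Function.comp] at hvt hvt' ⊢
  by_cases ha : β (src e) = some t
  · by_cases hX : X (src e) ↔ X (dst e)
    · have hXφ : ∀ x, X (φ x) ↔ X x := by
        intro x
        by_cases hx : x = dst e
        · rw [hx, hφb, hX]
        · rw [hφx x hx]
      obtain ⟨e', a1, a2, a3⟩ := h1 t ht X ⟨φ v, (hXφ v).mpr hvX, hvt⟩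
        ⟨φ v', fun h => hvX' ((hXφ v').mp h), hvt'⟩
      refine ⟨e', a1, a2, fun h => a3 ?_⟩
      simp only [Function.comp]
      rw [hXφ, hXφ]
      exact h
    · exact ⟨e, by rw [hφa]; exact ha, by rw [hφb]; exact ha, hX⟩
  · have hne : ∀ x, β (φ x) = some t → φ x = x := by
      intro x hx
      refine hφx x fun h => ha ?_
      rw [h, hφb] at hx
      exact hx
    obtain ⟨e', a1, a2, a3⟩ := h1 t ht X ⟨v, hvX, by rw [hne v hvt] at hvt; exact hvt⟩
      ⟨v', hvX', by rw [hne v' hvt'] at hvt'; exact hvt'⟩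
    simp only [Function.comp] at a1 a2 a3
    refine ⟨e', a1, a2, fun h => a3 ?_⟩
    rw [hne _ a1, hne _ a2]
    exact h

theorem ccT (n : ℕ) : CC (V := V) (E := E) (fun src dst => ¬ TreeMinor n src dst) :=
  fun src dst e h _ h' => h (treeMinor_ctr src dst e h')

end cls

section graph

variable {V : Type} [Fintype V] [DecidableEq V] {G : SimpleGraph V}

/-- the vertex with the address `w` and its predecessor -/
def addr (N : V → V → V × V) (x y : V) : List Bool → V × V
  | [] => (x, y)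
  | c :: w =>
    (if c then (N (addr N x y w).1 (addr N x y w).2).1 else (N (addr N x y w).1 (addr N x y w).2).2,
      (addr N x y w).1)

variable (h12 : ∀ (w : V) (c : G.Walk w w), c.IsCycle → 12 ≤ c.length)
  (N : V → V → V × V)
  (hN : ∀ v pr : V, (∃ z, G.Adj v z) → G.Adj v (N v pr).1 ∧ G.Adj v (N v pr).2 ∧
    (N v pr).1 ≠ (N v pr).2 ∧ (N v pr).1 ≠ pr ∧ (N v pr).2 ≠ pr)

include h12 hN

theorem addr_path {x y : V} (hxy : G.Adj x y) (w : List Bool) : w.length ≤ 5 →
    ∃ p : G.Walk x (addr N x y w).1, p.IsPath ∧ y ∉ p.support ∧ p.length = w.length ∧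
      (SimpleGraph.Walk.cons hxy.symm p).penultimate = (addr N x y w).2 := by
  induction w with
  | nil =>
    intro _
    refine ⟨SimpleGraph.Walk.nil, SimpleGraph.Walk.IsPath.nil, ?_, rfl, ?_⟩
    · intro h
      have h1 : y ∈ (SimpleGraph.Walk.nil : G.Walk x x).support := h
      rw [SimpleGraph.Walk.support_nil, List.mem_singleton] at h1
      exact hxy.ne h1.symm
    · rfl
  | cons c w ih =>
    intro hl
    rw [List.length_cons] at hl
    obtain ⟨p, hp, hy, hpl, hpen⟩ := ih (by omega)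
    obtain ⟨n1, n2, n3, n4, n5⟩ := hN (addr N x y w).1 (addr N x y w).2 (Ord.nbr hxy p)
    have hq : (SimpleGraph.Walk.cons hxy.symm p).IsPath := by
      rw [SimpleGraph.Walk.cons_isPath_iff]
      exact ⟨hp, hy⟩
    -- a new vertex
    have key : ∀ a, G.Adj (addr N x y w).1 a → a ≠ (addr N x y w).2 →
        ∃ p' : G.Walk x a, p'.IsPath ∧ y ∉ p'.support ∧ p'.length = w.length + 1 ∧
          (SimpleGraph.Walk.cons hxy.symm p').penultimate = (addr N x y w).1 := by
      intro a ha hne
      have h4 := ext_path h12 _ hq (by rw [SimpleGraph.Walk.length_cons]; omega) ha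
        (by rw [hpen]; exact hne)
      rw [SimpleGraph.Walk.support_cons, List.mem_cons, not_or] at h4
      refine ⟨p.concat ha, hp.concat h4.2 ha, ?_, ?_, ?_⟩
      · rw [SimpleGraph.Walk.support_concat, List.mem_append, not_or]
        exact ⟨hy, by simpa using fun h => h4.1 h.symm⟩
      · rw [SimpleGraph.Walk.length_concat, hpl]
      · rw [show SimpleGraph.Walk.cons hxy.symm (p.concat ha)
          = (SimpleGraph.Walk.cons hxy.symm p).concat ha from rfl,
          SimpleGraph.Walk.penultimate_concat]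
    cases c with
    | false => exact key _ n2 n5
    | true => exact key _ n1 n4

theorem addr_inj {x y : V} (hxy : G.Adj x y) (w : List Bool) : ∀ w' : List Bool, w.length ≤ 5 →
    w'.length ≤ 5 → (addr N x y w).1 = (addr N x y w').1 → w = w' := by
  have main : ∀ w w' : List Bool, w.length ≤ 5 → w'.length ≤ 5 →
      (addr N x y w).1 = (addr N x y w').1 → w.length = w'.length ∧
        (addr N x y w).2 = (addr N x y w').2 := by
    intro w w' hw hw' h
    obtain ⟨p, hp, hy, hpl, hpen⟩ := addr_path h12 N hN hxy w hw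
    obtain ⟨p', hp', hy', hpl', hpen'⟩ := addr_path h12 N hN hxy w' hw'
    rw [← hpl, ← hpl', ← hpen, ← hpen']
    revert p' hp' hy' hpl' hpen'
    rw [← h]
    intro p' hp' hy' hpl' hpen'
    have e1 := Ord.uniq h12 hp hp' (by omega)
    rw [e1]
    exact ⟨rfl, rfl⟩
  induction w with
  | nil =>
    intro w' hw hw' h
    have h1 := (main [] w' hw hw' h).1
    exact (List.length_eq_zero_iff.mp h1.symm).symm
  | cons c w ih =>
    intro w' hw hw' h
    obtain ⟨h1, h2⟩ := main (c :: w) w' hw hw' h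
    cases w' with
    | nil => simp at h1
    | cons c' w' =>
      rw [List.length_cons] at hw hw'
      have h3 : w = w' := ih w' (by omega) (by omega) h2
      subst h3
      obtain ⟨p, -⟩ := addr_path h12 N hN hxy w (by omega)
      obtain ⟨n1, n2, n3, n4, n5⟩ := hN (addr N x y w).1 (addr N x y w).2 (Ord.nbr hxy p)
      congr 1
      simp only [addr] at h
      cases c <;> cases c' <;> simp at h ⊢
      · exact n3 h.symm
      · exact n3 h

theorem addr_ne {x y : V} (hxy : G.Adj x y) (w w' : List Bool) (hw : w.length ≤ 5)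
    (hw' : w'.length ≤ 5) : (addr N x y w).1 ≠ (addr N y x w').1 := by
  intro h
  obtain ⟨p, hp, hy, hpl, hpen⟩ := addr_path h12 N hN hxy w hw
  obtain ⟨p', hp', hy', hpl', hpen'⟩ := addr_path h12 N hN hxy.symm w' hw'
  revert p' hp' hy' hpl' hpen'
  rw [← h]
  intro p' hp' hy' hpl' hpen'
  have hq : (SimpleGraph.Walk.cons hxy p').IsPath := by
    rw [SimpleGraph.Walk.cons_isPath_iff]
    exact ⟨hp', hy'⟩
  have e1 := Ord.uniq h12 hp hq (by rw [SimpleGraph.Walk.length_cons]; omega)
  apply hy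
  rw [e1, SimpleGraph.Walk.support_cons]
  exact List.mem_cons_of_mem _ p'.start_mem_support

end graph

/-- **Main step.** -/
theorem flow_of_no_tree (hc : St_contract) {V E : Type} [Fintype V] [DecidableEq V]
    [Fintype E] [DecidableEq E] (src dst : E → V) (hcl : ¬ TreeMinor 5 src dst)
    (hbr : Br src dst ∅ ∅) : FlowOn src dst ∅ ∅ := by
  classical
  by_contra hn
  obtain ⟨s, d, hS, hM⟩ := exists_minC (ccT 5) src dst hcl hbr hn
  have h3 := threeC hc hM
  have hgi := girthC hc hM
  by_cases hl : ∀ e, s e = d e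
  · exact hM.nf (flow_of_loops hl)
  push Not at hl
  obtain ⟨e, he⟩ := hl
  let G : SimpleGraph V :=
    { Adj := Adj s d
      symm := ⟨fun a b h => GiAux.adj_symm h⟩
      loopless := ⟨fun a h => h.1 rfl⟩ }
  have hG : ∀ a b, G.Adj a b ↔ Adj s d a b := fun a b => Iff.rfl
  have h12 : ∀ (w : V) (c : G.Walk w w), c.IsCycle → 12 ≤ c.length :=
    fun w c hc => Ord.cycle_len hgi G hG c hc
  have h3' : ∀ x y, G.Adj x y → ∃ a b c, G.Adj x a ∧ G.Adj x b ∧ G.Adj x c ∧ a ≠ b ∧ a ≠ c ∧ b ≠ c :=
    fun x y h => h3 x y h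
  have hxy : G.Adj (s e) (d e) := ⟨he, e, Or.inl ⟨rfl, rfl⟩⟩
  obtain ⟨N, hN⟩ : ∃ N : V → V → V × V, ∀ v pr : V, (∃ z, G.Adj v z) →
      G.Adj v (N v pr).1 ∧ G.Adj v (N v pr).2 ∧
      (N v pr).1 ≠ (N v pr).2 ∧ (N v pr).1 ≠ pr ∧ (N v pr).2 ≠ pr := by
    have : ∀ v pr : V, ∃ q : V × V, (∃ z, G.Adj v z) → G.Adj v q.1 ∧ G.Adj v q.2 ∧
        q.1 ≠ q.2 ∧ q.1 ≠ pr ∧ q.2 ≠ pr := by
      intro v pr
      by_cases hz : ∃ z, G.Adj v z
      · obtain ⟨z, hz⟩ := hz
        obtain ⟨a, b, h⟩ := two_more (pr := pr) (h3' v z hz)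
        exact ⟨(a, b), fun _ => h⟩
      · exact ⟨(v, v), fun h => absurd h hz⟩
    choose N hN using this
    exact ⟨N, hN⟩
  obtain ⟨x, hx⟩ : ∃ x, x = s e := ⟨_, rfl⟩
  obtain ⟨y, hy⟩ : ∃ y, y = d e := ⟨_, rfl⟩
  rw [← hx, ← hy] at hxy
  let emb : Bool × List Bool → V := fun t => if t.1 then (addr N y x t.2).1 else (addr N x y t.2).1
  have hinj : ∀ t t' : Bool × List Bool, t.2.length ≤ 5 → t'.2.length ≤ 5 → emb t = emb t' →
      t = t' := by
    rintro ⟨b, w⟩ ⟨b', w'⟩ h1 h2 h
    cases b <;> cases b' <;> simp only [emb, if_true, if_false, Bool.false_eq_true] at h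
    · rw [addr_inj h12 N hN hxy w w' h1 h2 h]
    · exact absurd h (addr_ne h12 N hN hxy w w' h1 h2)
    · exact absurd h.symm (addr_ne h12 N hN hxy w' w h2 h1)
    · rw [addr_inj h12 N hN hxy.symm w w' h1 h2 h]
  have hadj : ∀ (b c : Bool) (w : List Bool), w.length ≤ 5 → G.Adj (emb (b, w)) (emb (b, c :: w)) := by
    intro b c w hw
    cases b
    · obtain ⟨p, -⟩ := addr_path h12 N hN hxy w hw
      obtain ⟨n1, n2, -⟩ := hN (addr N x y w).1 (addr N x y w).2 (Ord.nbr hxy p)
      cases c
      · exact n2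
      · exact n1
    · obtain ⟨p, -⟩ := addr_path h12 N hN hxy.symm w hw
      obtain ⟨n1, n2, -⟩ := hN (addr N y x w).1 (addr N y x w).2 (Ord.nbr hxy.symm p)
      cases c
      · exact n2
      · exact n1
  let β : V → Option (Bool × List Bool) := fun v =>
    if h : ∃ t : Bool × List Bool, t.2.length ≤ 5 ∧ emb t = v then some (Classical.choose h) else none
  have hβ1 : ∀ t : Bool × List Bool, t.2.length ≤ 5 → β (emb t) = some t := by
    intro t ht
    have h : ∃ t' : Bool × List Bool, t'.2.length ≤ 5 ∧ emb t' = emb t := ⟨t, ht, rfl⟩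
    have h1 := Classical.choose_spec h
    simp only [β]
    rw [dif_pos h]
    congr 1
    exact hinj _ _ h1.1 ht h1.2
  have hβ2 : ∀ v t, β v = some t → emb t = v := by
    intro v t h
    simp only [β] at h
    by_cases h1 : ∃ t : Bool × List Bool, t.2.length ≤ 5 ∧ emb t = v
    · rw [dif_pos h1, Option.some_inj] at h
      rw [← h]
      exact (Classical.choose_spec h1).2
    · rw [dif_neg h1] at h
      exact absurd h (by simp)
  have hedge : ∀ t t' : Bool × List Bool, t.2.length ≤ 5 → t'.2.length ≤ 5 → G.Adj (emb t) (emb t') →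
      ∃ e, (β (s e) = some t ∧ β (d e) = some t') ∨ (β (d e) = some t ∧ β (s e) = some t') := by
    intro t t' h1 h2 h
    obtain ⟨-, e', he'⟩ := h
    refine ⟨e', ?_⟩
    rcases he' with ⟨a, b⟩ | ⟨a, b⟩
    · left
      rw [a, b]
      exact ⟨hβ1 t h1, hβ1 t' h2⟩
    · right
      rw [a, b]
      exact ⟨hβ1 t h1, hβ1 t' h2⟩
  apply hS
  refine ⟨β, ?_, ?_, ?_⟩
  · intro t ht X hv hv'
    obtain ⟨v, hvX, hvt⟩ := hv
    obtain ⟨v', hvX', hvt'⟩ := hv'
    exfalso
    apply hvX'
    rw [← hβ2 v' t hvt', hβ2 v t hvt]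
    exact hvX
  · exact hedge (false, []) (true, []) (by simp) (by simp) hxy
  · intro b c w hw
    exact hedge (b, w) (b, c :: w) (by simp; omega) (by simp; omega) (hadj b c w (by omega))

end Pool.Agent.H173FL
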